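import Pool.Agent.H524Z.Tile.Step

/-!
# A rotund and smooth normed space covered by pairwise disjoint closed unit balls
-/

set_option autoImplicit false

open Filter Topology

namespace Pool.Agent.H524Z.Tile

/-- a stage of the construction -/
structure St (pt : ℝ → ℝ →₀ ℝ) where
  S : Set ℝ
  N : (ℝ →₀ ℝ) → ℝ
  good : Good (Y S) N
  coord : ∀ y ∈ Y S, ∀ c, |y c| ≤ N y
  mem : ∀ c ∈ S, pt c ∈ Y S ∧ pt c c = 0
  unit : ∀ c ∈ S, N (Finsupp.single c 1) = 1
  sep : ∀ c ∈ S, ∀ d ∈ S, c ≠ d →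
    2 < N ((pt c + Finsupp.single c 1) - (pt d + Finsupp.single d 1))

variable {pt : ℝ → ℝ →₀ ℝ}

/-- extension of stages -/
def Ext (a b : St pt) : Prop := a.S ⊆ b.S ∧ ∀ y ∈ Y a.S, b.N y = a.N y

theorem Y_mono {S T : Set ℝ} (h : S ⊆ T) {y : ℝ →₀ ℝ} (hy : y ∈ Y S) : y ∈ Y T :=
  Finsupp.supported_mono h hy

theorem single_mem {S : Set ℝ} {c : ℝ} (hc : c ∈ S) : Finsupp.single c (1 : ℝ) ∈ Y S := by
  rw [mem_Y]
  intro d hd
  have : d ≠ c := fun h => hd (h ▸ hc)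
  simp [this]

theorem St.ctr_mem (a : St pt) {c : ℝ} (hc : c ∈ a.S) : pt c + Finsupp.single c 1 ∈ Y a.S :=
  Submodule.add_mem _ (a.mem c hc).1 (single_mem hc)

theorem eq_zero_of_empty {y : ℝ →₀ ℝ} (hy : y ∈ Y ∅) : y = 0 := by
  ext c
  exact mem_Y.1 hy c (Set.notMem_empty c)

instance : Nonempty (St pt) := ⟨⟨∅, fun _ => 0,
  ⟨⟨fun _ _ _ _ => by simp, fun _ _ _ => by simp⟩, fun _ hx h0 => absurd (eq_zero_of_empty hx) h0,
    fun _ hx _ _ _ => Or.inl (eq_zero_of_empty hx), fun _ _ _ _ _ => differentiableAt_const _⟩,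
  fun y hy c => by simp [eq_zero_of_empty hy], by simp, by simp, by simp⟩⟩

theorem chain_bound (C : Set (St pt)) (hC : IsChain Ext C) (hne : C.Nonempty) :
    ∃ u, ∀ a ∈ C, Ext a u := by
  classical
  have hcmp : ∀ a ∈ C, ∀ b ∈ C, Ext a b ∨ Ext b a := by
    intro a ha b hb
    by_cases h : a = b
    · exact Or.inl (h ▸ ⟨subset_rfl, fun _ _ => rfl⟩)
    · exact hC ha hb h
  set S : Set ℝ := ⋃ a ∈ C, a.S with hS
  have hsub : ∀ a ∈ C, a.S ⊆ S := fun a ha => Set.subset_biUnion_of_mem (u := fun a => a.S) ha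
  have hfin : ∀ T : Finset ℝ, (T : Set ℝ) ⊆ S → ∃ a ∈ C, (T : Set ℝ) ⊆ a.S := by
    intro T
    induction T using Finset.induction_on with
    | empty =>
      intro _
      obtain ⟨a, ha⟩ := hne
      exact ⟨a, ha, by simp⟩
    | insert c T _ ih =>
      intro h
      rw [Finset.coe_insert, Set.insert_subset_iff] at h
      obtain ⟨a, ha, h1⟩ := ih h.2
      obtain ⟨b, hb, h2⟩ := Set.mem_iUnion₂.1 h.1
      rcases hcmp a ha b hb with h3 | h3
      · exact ⟨b, hb, by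
          rw [Finset.coe_insert]; exact Set.insert_subset h2 (h1.trans h3.1)⟩
      · exact ⟨a, ha, by
          rw [Finset.coe_insert]; exact Set.insert_subset (h3.1 h2) h1⟩
  have h2 : ∀ x ∈ Y S, ∀ y ∈ Y S, ∃ a ∈ C, x ∈ Y a.S ∧ y ∈ Y a.S := by
    intro x hx y hy
    rw [Finsupp.mem_supported] at hx hy
    obtain ⟨a, ha, h⟩ := hfin (x.support ∪ y.support) (by
      rw [Finset.coe_union]; exact Set.union_subset hx hy)
    rw [Finset.coe_union, Set.union_subset_iff] at h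
    exact ⟨a, ha, (Finsupp.mem_supported _ _).2 h.1, (Finsupp.mem_supported _ _).2 h.2⟩
  set N : (ℝ →₀ ℝ) → ℝ := fun y => if h : ∃ a ∈ C, y ∈ Y a.S then h.choose.N y else 0 with hN
  have hNa : ∀ a ∈ C, ∀ y ∈ Y a.S, N y = a.N y := by
    intro a ha y hy
    have h : ∃ a ∈ C, y ∈ Y a.S := ⟨a, ha, hy⟩
    simp only [hN, dif_pos h]
    rcases hcmp a ha _ h.choose_spec.1 with h3 | h3
    · exact h3.2 y hy
    · exact (h3.2 y h.choose_spec.2).symm
  refine ⟨⟨S, N, ⟨⟨?_, ?_⟩, ?_, ?_, ?_⟩, ?_, ?_, ?_, ?_⟩, fun a ha => ⟨hsub a ha, hNa a ha⟩⟩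
  · intro x hx y hy
    obtain ⟨a, ha, h1, h2⟩ := h2 x hx y hy
    rw [hNa a ha _ h1, hNa a ha _ h2, hNa a ha _ (Submodule.add_mem _ h1 h2)]
    exact a.good.add x h1 y h2
  · intro r x hx
    obtain ⟨a, ha, h1, -⟩ := h2 x hx x hx
    rw [hNa a ha _ h1, hNa a ha _ (Submodule.smul_mem _ r h1)]
    exact a.good.smul r x h1
  · intro x hx h0
    obtain ⟨a, ha, h1, -⟩ := h2 x hx x hx
    rw [hNa a ha _ h1]
    exact a.good.pos x h1 h0
  · intro x hx y hy h
    obtain ⟨a, ha, h1, h2⟩ := h2 x hx y hy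
    rw [hNa a ha _ h1, hNa a ha _ h2, hNa a ha _ (Submodule.add_mem _ h1 h2)] at h
    exact a.good.rot x h1 y h2 h
  · intro x hx h0 y hy
    obtain ⟨a, ha, h1, h2⟩ := h2 x hx y hy
    have : (fun r : ℝ => N (x + r • y)) = fun r : ℝ => a.N (x + r • y) :=
      funext fun r => hNa a ha _ (Submodule.add_mem _ h1 (Submodule.smul_mem _ r h2))
    rw [this]
    exact a.good.dif x h1 h0 y h2
  · intro x hx c
    obtain ⟨a, ha, h1, -⟩ := h2 x hx x hx
    rw [hNa a ha _ h1]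
    exact a.coord x h1 c
  · intro c hc
    obtain ⟨a, ha, h1⟩ := Set.mem_iUnion₂.1 hc
    exact ⟨Y_mono (hsub a ha) (a.mem c h1).1, (a.mem c h1).2⟩
  · intro c hc
    obtain ⟨a, ha, h1⟩ := Set.mem_iUnion₂.1 hc
    rw [hNa a ha _ (single_mem h1)]
    exact a.unit c h1
  · intro c hc d hd hcd
    obtain ⟨a, ha, h⟩ := hfin {c, d} (by
      rw [Finset.coe_pair]; exact Set.pair_subset hc hd)
    rw [Finset.coe_pair, Set.pair_subset_iff] at h
    rw [hNa a ha _ (Submodule.sub_mem _ (a.ctr_mem h.1) (a.ctr_mem h.2))]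
    exact a.sep c h.1 d h.2 hcd

theorem exists_cover (hpt : Function.Surjective pt) : ∃ a : St pt, ∀ x ∈ Y a.S, ∃ c ∈ a.S,
    a.N (x - (pt c + Finsupp.single c 1)) ≤ 1 := by
  obtain ⟨a, ha⟩ := exists_maximal_of_nonempty_chains_bounded (r := Ext (pt := pt)) chain_bound
    (fun {a b c} h1 h2 => ⟨h1.1.trans h2.1, fun y hy =>
      (h2.2 y (Y_mono h1.1 hy)).trans (h1.2 y hy)⟩)
  refine ⟨a, fun x hx => ?_⟩
  by_contra hcov
  push Not at hcov
  obtain ⟨γ, rfl⟩ := hpt x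
  have hγ : γ ∉ a.S := by
    intro h
    have := hcov γ h
    rw [sub_add_cancel_left, a.good.toSemi.neg (single_mem h), a.unit γ h] at this
    exact lt_irrefl _ this
  obtain ⟨N', g, e1, e2, e3, e4⟩ := extend a.good a.coord hγ (pt γ)
    (fun c => pt γ - (pt c + Finsupp.single c 1)) (fun c hc =>
      ⟨Submodule.sub_mem _ hx (a.ctr_mem hc), hcov c hc, fun h => by
        simp [h, (a.mem c hc).2]⟩)
  have hs := Set.subset_insert γ a.S
  have key : ∀ c ∈ a.S,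
      2 < N' ((pt γ + Finsupp.single γ 1) - (pt c + Finsupp.single c 1)) := by
    intro c hc
    have := e4 c hc
    rwa [sub_add_eq_add_sub] at this
  have hm : pt γ + Finsupp.single γ 1 ∈ Y (insert γ a.S) :=
    Submodule.add_mem _ (Y_mono hs hx) (single_mem (Set.mem_insert _ _))
  let b : St pt := ⟨insert γ a.S, N', g, e3, by
      rintro c (rfl | hc)
      · exact ⟨Y_mono hs hx, mem_Y.1 hx _ hγ⟩
      · exact ⟨Y_mono hs (a.mem c hc).1, (a.mem c hc).2⟩, by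
      rintro c (rfl | hc)
      · exact e2
      · rw [e1 _ (single_mem hc), a.unit c hc], by
      rintro c (rfl | hc) d (rfl | hd) hcd
      · exact absurd rfl hcd
      · exact key d hd
      · rw [← neg_sub, g.toSemi.neg (Submodule.sub_mem _ hm (Y_mono hs (a.ctr_mem hc)))]
        exact key c hc
      · rw [e1 _ (Submodule.sub_mem _ (a.ctr_mem hc) (a.ctr_mem hd))]
        exact a.sep c hc d hd hcd⟩
  exact hγ ((ha b ⟨hs, e1⟩).1 (Set.mem_insert _ _))

theorem exists_pt : ∃ pt : ℝ → ℝ →₀ ℝ, Function.Surjective pt := by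
  have : Cardinal.mk ℝ = Cardinal.mk (ℝ →₀ ℝ) := by simp
  obtain ⟨e⟩ := Cardinal.eq.1 this
  exact ⟨e, e.surjective⟩

theorem St.infinite (a : St pt) (h : ∀ x ∈ Y a.S, ∃ c ∈ a.S,
    a.N (x - (pt c + Finsupp.single c 1)) ≤ 1) : a.S.Infinite := by
  intro hf
  obtain ⟨c0, hc0, -⟩ := h 0 (Submodule.zero_mem _)
  obtain ⟨R, hR⟩ := (hf.image fun c => a.N (pt c + Finsupp.single c 1)).bddAbove
  obtain ⟨c, hc, h1⟩ := h ((|R| + 2) • Finsupp.single c0 1)
    (Submodule.smul_mem _ _ (single_mem hc0))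
  have h2 := a.good.add _ (Submodule.sub_mem _ (Submodule.smul_mem _ (|R| + 2) (single_mem hc0))
    (a.ctr_mem hc)) _ (a.ctr_mem hc)
  rw [sub_add_cancel, a.good.smul _ _ (single_mem hc0), a.unit c0 hc0,
    abs_of_pos (by positivity)] at h2
  have h3 := hR (Set.mem_image_of_mem _ hc)
  have h4 := le_abs_self R
  linarith

/-- the norm of a stage -/
noncomputable def St.grpNorm (a : St pt) : AddGroupNorm (Y a.S) where
  toFun x := a.N x
  map_zero' := a.good.toSemi.zero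
  add_le' x y := a.good.add _ x.2 _ y.2
  neg' x := a.good.toSemi.neg x.2
  eq_zero_of_map_eq_zero' x h := by
    by_contra h0
    exact (a.good.pos _ x.2 fun h1 => h0 (Subtype.ext h1)).ne' h

theorem main : ∃ (X : Type) (_ : NormedAddCommGroup X) (_ : NormedSpace ℝ X),
    ¬ FiniteDimensional ℝ X ∧
    (∀ x y : X, ‖x‖ = 1 → ‖y‖ = 1 → x ≠ y → ‖(1 / 2 : ℝ) • (x + y)‖ < 1) ∧
    (∀ x : X, ‖x‖ = 1 → ∃! f : X →L[ℝ] ℝ, ‖f‖ = 1 ∧ f x = 1) ∧
    ∃ C : Set X, (⋃ c ∈ C, Metric.closedBall c 1) = Set.univ ∧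
      C.PairwiseDisjoint fun c => Metric.closedBall c 1 := by
  obtain ⟨pt, hpt⟩ := exists_pt
  obtain ⟨a, ha⟩ := exists_cover hpt
  letI i1 : NormedAddCommGroup (Y a.S) := a.grpNorm.toNormedAddCommGroup
  have hn : ∀ x : Y a.S, ‖x‖ = a.N x := fun _ => rfl
  letI i2 : NormedSpace ℝ (Y a.S) := ⟨fun r x => by
    rw [hn, hn, Real.norm_eq_abs]; exact (a.good.smul r _ x.2).le⟩
  refine ⟨Y a.S, i1, i2, ?_, ?_, ?_, ?_⟩
  · intro hfd
    have h1 : FiniteDimensional ℝ (a.S →₀ ℝ) :=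
      (Finsupp.supportedEquivFinsupp (R := ℝ) (M := ℝ) a.S).finiteDimensional
    have h2 : Finite a.S := Module.Finite.finite_basis (Finsupp.basisSingleOne (R := ℝ))
    exact a.infinite ha h2
  · intro x y hx hy hxy
    rw [norm_smul]
    have h1 := norm_add_le x y
    have h2 : ‖x + y‖ ≠ ‖x‖ + ‖y‖ := by
      intro h
      rcases a.good.rot _ x.2 _ y.2 h with h3 | ⟨k, k0, h3⟩
      · rw [hn, h3, a.good.toSemi.zero] at hx
        exact zero_ne_one hx
      · have h4 : y = k • x := Subtype.ext h3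
        rw [h4, norm_smul, hx, Real.norm_eq_abs, abs_of_nonneg k0, mul_one] at hy
        rw [hy, one_smul] at h4
        exact hxy h4.symm
    have h3 := lt_of_le_of_ne h1 h2
    rw [hx, hy] at h3
    rw [Real.norm_eq_abs, abs_of_pos (by norm_num)]
    linarith
  · intro x hx
    have h0 : x ≠ 0 := by
      intro h
      rw [h, norm_zero] at hx
      exact zero_ne_one hx
    obtain ⟨g, g1, g2⟩ := exists_dual_vector ℝ x (by rw [hx]; exact one_ne_zero)
    have key : ∀ f : Y a.S →L[ℝ] ℝ, ‖f‖ = 1 ∧ f x = 1 → ∀ v : Y a.S,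
        f v = deriv (fun r : ℝ => ‖x + r • v‖) 0 := by
      intro f hf v
      have d1 : DifferentiableAt ℝ (fun r : ℝ => ‖x + r • v‖) 0 :=
        a.good.dif _ x.2 (fun h => h0 (Subtype.ext h)) _ v.2
      have d2 : HasDerivAt (fun r : ℝ => ‖x + r • v‖ - r * f v)
          (deriv (fun r : ℝ => ‖x + r • v‖) 0 - 1 * f v) 0 :=
        d1.hasDerivAt.sub ((hasDerivAt_id (0 : ℝ)).mul_const _)
      have hmin : IsLocalMin (fun r : ℝ => ‖x + r • v‖ - r * f v) 0 := by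
        apply Filter.Eventually.of_forall
        intro r
        have h1 := f.le_opNorm (x + r • v)
        rw [hf.1, one_mul, map_add, map_smul, hf.2, smul_eq_mul, Real.norm_eq_abs] at h1
        have h2 := le_abs_self (1 + r * f v)
        simp only [zero_smul, add_zero, zero_mul, sub_zero, hx]
        linarith
      have := hmin.hasDerivAt_eq_zero d2
      linarith
    refine ⟨g, ⟨g1, by simpa [hx] using g2⟩, fun f hf => ?_⟩
    ext v
    rw [key f hf v, key g ⟨g1, by simpa [hx] using g2⟩ v]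
  · refine ⟨{z | ∃ c ∈ a.S, (z : ℝ →₀ ℝ) = pt c + Finsupp.single c 1}, ?_, ?_⟩
    · rw [Set.eq_univ_iff_forall]
      intro x
      obtain ⟨c, hc, h⟩ := ha x x.2
      refine Set.mem_iUnion₂.2 ⟨⟨_, a.ctr_mem hc⟩, ⟨c, hc, rfl⟩, ?_⟩
      rw [mem_closedBall_iff_norm, hn]
      exact h
    · rintro z ⟨c, hc, h1⟩ w ⟨d, hd, h2⟩ hzw
      apply Metric.closedBall_disjoint_closedBall
      rw [dist_eq_norm, hn, Submodule.coe_sub, h1, h2, one_add_one_eq_two]
      refine a.sep c hc d hd fun h => hzw (Subtype.ext ?_)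
      rw [h1, h2, h]

end Pool.Agent.H524Z.Tile
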