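import Mathlib

/-!
# Rotund and smooth norms on a subspace: the smooth maximum
-/

set_option autoImplicit false

open Filter Topology

namespace Pool.Agent.H524Z.Tile

variable {V : Type} [AddCommGroup V] [Module ℝ V]

/-- `G` is a seminorm on the subspace `W` -/
structure Semi (W : Submodule ℝ V) (G : V → ℝ) : Prop where
  add : ∀ x ∈ W, ∀ y ∈ W, G (x + y) ≤ G x + G y
  smul : ∀ c : ℝ, ∀ x ∈ W, G (c • x) = |c| * G x

/-- `A` is a rotund and smooth norm on the subspace `W` -/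
structure Good (W : Submodule ℝ V) (A : V → ℝ) : Prop extends Semi W A where
  pos : ∀ x ∈ W, x ≠ 0 → 0 < A x
  rot : ∀ x ∈ W, ∀ y ∈ W, A (x + y) = A x + A y → x = 0 ∨ ∃ k : ℝ, 0 ≤ k ∧ y = k • x
  dif : ∀ x ∈ W, x ≠ 0 → ∀ h ∈ W, DifferentiableAt ℝ (fun r : ℝ => A (x + r • h)) 0

variable {W : Submodule ℝ V} {G A : V → ℝ}

theorem Semi.zero (h : Semi W G) : G 0 = 0 := by
  have := h.smul 0 0 W.zero_mem
  simpa using this

theorem Semi.neg (h : Semi W G) {x : V} (hx : x ∈ W) : G (-x) = G x := by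
  have := h.smul (-1) x hx
  simpa using this

theorem Semi.nonneg (h : Semi W G) {x : V} (hx : x ∈ W) : 0 ≤ G x := by
  have := h.add x hx (-x) (W.neg_mem hx)
  rw [add_neg_cancel, h.zero, h.neg hx] at this
  linarith

theorem Semi.cont (h : Semi W G) {x v : V} (hx : x ∈ W) (hv : v ∈ W) :
    ContinuousAt (fun r : ℝ => G (x + r • v)) 0 := by
  have hb : ∀ r : ℝ, |G (x + r • v) - G x| ≤ |r| * G v := by
    intro r
    have hr : r • v ∈ W := W.smul_mem r hv
    have h1 := h.add x hx _ hr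
    have h2 := h.add _ (W.add_mem hx hr) _ (W.neg_mem hr)
    rw [add_neg_cancel_right, h.neg hr] at h2
    rw [h.smul r v hv] at h1 h2
    rw [abs_le]
    constructor <;> linarith
  have h0 : Tendsto (fun r : ℝ => |r| * G v) (𝓝 0) (𝓝 0) := by
    have : Continuous fun r : ℝ => |r| * G v := by fun_prop
    simpa using this.tendsto 0
  rw [ContinuousAt, tendsto_iff_norm_sub_tendsto_zero]
  refine squeeze_zero (fun _ => norm_nonneg _) (fun r => ?_) h0
  simpa using hb r

theorem mink (u1 v1 u2 v2 : ℝ) :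
    √((u1 + u2) ^ 2 + (v1 + v2) ^ 2) ≤ √(u1 ^ 2 + v1 ^ 2) + √(u2 ^ 2 + v2 ^ 2) := by
  have h := norm_add_le (⟨u1, v1⟩ : ℂ) ⟨u2, v2⟩
  simp only [Complex.norm_def, Complex.normSq_apply, Complex.add_re, Complex.add_im] at h
  simpa only [sq] using h

theorem mink_eq {u1 v1 u2 v2 : ℝ}
    (h : √((u1 + u2) ^ 2 + (v1 + v2) ^ 2) = √(u1 ^ 2 + v1 ^ 2) + √(u2 ^ 2 + v2 ^ 2)) :
    u1 * v2 = u2 * v1 ∧ 0 ≤ u1 * u2 + v1 * v2 := by
  set p := √(u1 ^ 2 + v1 ^ 2) with hp
  set q := √(u2 ^ 2 + v2 ^ 2) with hq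
  have p2 : p ^ 2 = u1 ^ 2 + v1 ^ 2 := Real.sq_sqrt (by positivity)
  have q2 : q ^ 2 = u2 ^ 2 + v2 ^ 2 := Real.sq_sqrt (by positivity)
  have h2 : (u1 + u2) ^ 2 + (v1 + v2) ^ 2 = (p + q) ^ 2 := by
    rw [← h, Real.sq_sqrt (by positivity)]
  have h3 : u1 * u2 + v1 * v2 = p * q := by nlinarith
  have h4 : (u1 * v2 - u2 * v1) ^ 2 = 0 := by
    have : (u1 * u2 + v1 * v2) ^ 2 = p ^ 2 * q ^ 2 := by rw [h3]; ring
    rw [p2, q2] at this
    nlinarith
  refine ⟨by have := pow_eq_zero_iff (n := 2) (by norm_num) |>.1 h4; linarith, ?_⟩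
  rw [h3]
  positivity

/-- the smooth maximum -/
noncomputable def M (m a b : ℝ) : ℝ :=
  (1 - m) / 2 * a + (m * a + √((max (b - m * a) 0) ^ 2 + ((1 - m) / 2 * a) ^ 2))

theorem M_eq {m a b : ℝ} (hm : m < 1) (ha : 0 ≤ a) (hb : b ≤ m * a) : M m a b = a := by
  have : 0 ≤ (1 - m) / 2 * a := by
    have : 0 ≤ 1 - m := by linarith
    positivity
  rw [M, max_eq_right (by linarith)]
  simp only [ne_eq, OfNat.ofNat_ne_zero, not_false_eq_true, zero_pow, zero_add]
  rw [Real.sqrt_sq this]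
  ring

theorem le_M_left (m a b : ℝ) : a ≤ M m a b := by
  have : (1 - m) / 2 * a ≤ √((max (b - m * a) 0) ^ 2 + ((1 - m) / 2 * a) ^ 2) :=
    Real.le_sqrt_of_sq_le (by nlinarith [sq_nonneg (max (b - m * a) 0)])
  rw [M]
  linarith

theorem le_M_right {m a : ℝ} (b : ℝ) (hm : m < 1) (ha : 0 ≤ a) : b ≤ M m a b := by
  have h1 : max (b - m * a) 0 ≤ √((max (b - m * a) 0) ^ 2 + ((1 - m) / 2 * a) ^ 2) :=
    Real.le_sqrt_of_sq_le (by nlinarith [sq_nonneg ((1 - m) / 2 * a)])
  have h2 := le_max_left (b - m * a) 0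
  have : 0 ≤ (1 - m) / 2 * a := by
    have : 0 ≤ 1 - m := by linarith
    positivity
  rw [M]
  linarith

theorem M_smul (m a b : ℝ) {c : ℝ} (hc : 0 ≤ c) : M m (c * a) (c * b) = c * M m a b := by
  have h1 : max (c * b - m * (c * a)) 0 = c * max (b - m * a) 0 := by
    rw [mul_max_of_nonneg _ _ hc]
    congr 1 <;> ring
  have h2 : (c * max (b - m * a) 0) ^ 2 + ((1 - m) / 2 * (c * a)) ^ 2 =
      c ^ 2 * ((max (b - m * a) 0) ^ 2 + ((1 - m) / 2 * a) ^ 2) := by ring
  rw [M, M, h1, h2, Real.sqrt_mul (sq_nonneg c), Real.sqrt_sq hc]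
  ring

theorem W_add {m a a1 a2 b b1 b2 : ℝ} (hm0 : 0 ≤ m) (hm : m < 1) (ha : 0 ≤ a)
    (h1 : a ≤ a1 + a2) (h2 : b ≤ b1 + b2) :
    m * a + √((max (b - m * a) 0) ^ 2 + ((1 - m) / 2 * a) ^ 2) ≤
      (m * a1 + √((max (b1 - m * a1) 0) ^ 2 + ((1 - m) / 2 * a1) ^ 2)) +
      (m * a2 + √((max (b2 - m * a2) 0) ^ 2 + ((1 - m) / 2 * a2) ^ 2)) := by
  set k := (1 - m) / 2 with hk
  have k0 : 0 ≤ k := by rw [hk]; linarith
  set u := max (b - m * a) 0
  set u1 := max (b1 - m * a1) 0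
  set u2 := max (b2 - m * a2) 0
  set d := m * (a1 + a2 - a) with hd
  have d0 : 0 ≤ d := mul_nonneg hm0 (by linarith)
  have u0 : 0 ≤ u := le_max_right _ _
  have u10 : 0 ≤ u1 := le_max_right _ _
  have u20 : 0 ≤ u2 := le_max_right _ _
  have hu : u ≤ u1 + u2 + d := by
    apply max_le
    · have e1 : b1 - m * a1 ≤ u1 := le_max_left _ _
      have e2 : b2 - m * a2 ≤ u2 := le_max_left _ _
      rw [hd]
      linarith
    · linarith
  have hv : k * a ≤ k * a1 + k * a2 := by nlinarith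
  have hv0 : 0 ≤ k * a := mul_nonneg k0 ha
  have e1 : √(u ^ 2 + (k * a) ^ 2) ≤ √((u1 + u2 + d) ^ 2 + (k * a1 + k * a2 + 0) ^ 2) := by
    apply Real.sqrt_le_sqrt
    have := pow_le_pow_left₀ u0 hu 2
    have := pow_le_pow_left₀ hv0 hv 2
    rw [add_zero]
    linarith
  have e2 := mink (u1 + u2) (k * a1 + k * a2) d 0
  have e3 := mink u1 (k * a1) u2 (k * a2)
  have e4 : √(d ^ 2 + 0 ^ 2) = d := by simp [Real.sqrt_sq d0]
  linarith

theorem diff_pos_sq (s : ℝ) : DifferentiableAt ℝ (fun s : ℝ => (max s 0) ^ 2) s := by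
  rcases lt_trichotomy s 0 with h | h | h
  · have : (fun s : ℝ => (max s 0) ^ 2) =ᶠ[𝓝 s] fun _ => 0 := by
      filter_upwards [Iio_mem_nhds h] with t ht
      rw [max_eq_right (le_of_lt ht)]
      simp
    exact (differentiableAt_const 0).congr_of_eventuallyEq this
  · subst h
    have : HasDerivAt (fun s : ℝ => (max s 0) ^ 2) 0 0 := by
      rw [hasDerivAt_iff_isLittleO_nhds_zero]
      refine Asymptotics.IsBigO.trans_isLittleO (g := fun h : ℝ => h ^ 2) ?_
        (Asymptotics.isLittleO_pow_id (by norm_num))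
      apply Asymptotics.IsBigO.of_bound 1
      filter_upwards with t
      simp only [zero_add, max_self, ne_eq, OfNat.ofNat_ne_zero, not_false_eq_true, zero_pow,
        sub_zero, smul_eq_mul, mul_zero, norm_pow, Real.norm_eq_abs, sq_abs, one_mul]
      rcases le_total t 0 with h | h
      · rw [max_eq_right h]
        nlinarith [sq_nonneg t]
      · rw [max_eq_left h]
    exact this.differentiableAt
  · have : (fun s : ℝ => (max s 0) ^ 2) =ᶠ[𝓝 s] fun t => t ^ 2 := by
      filter_upwards [Ioi_mem_nhds h] with t ht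
      rw [max_eq_left (le_of_lt ht)]
    exact (differentiableAt_pow 2).congr_of_eventuallyEq this

theorem Good.step (hA : Good W A) (hG : Semi W G) {m : ℝ} (hm0 : 0 ≤ m) (hm : m < 1)
    (hd : ∀ x ∈ W, x ≠ 0 → m * A x ≤ G x → ∀ h ∈ W,
      DifferentiableAt ℝ (fun r : ℝ => G (x + r • h)) 0) :
    Good W fun z => M m (A z) (G z) := by
  have k0 : 0 < (1 - m) / 2 := by linarith
  have hsm : ∀ c : ℝ, ∀ x ∈ W, M m (A (c • x)) (G (c • x)) = |c| * M m (A x) (G x) := by
    intro c x hx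
    rw [hA.smul c x hx, hG.smul c x hx, M_smul _ _ _ (abs_nonneg c)]
  refine ⟨⟨?_, hsm⟩, ?_, ?_, ?_⟩
  · intro x hx y hy
    have h1 := hA.add x hx y hy
    have h2 := W_add hm0 hm (hA.toSemi.nonneg (W.add_mem hx hy)) h1 (hG.add x hx y hy)
    have h3 := mul_le_mul_of_nonneg_left h1 k0.le
    simp only [M]
    linarith
  · intro x hx h0
    exact (hA.pos x hx h0).trans_le (le_M_left _ _ _)
  · intro x hx y hy h
    have h1 := hA.add x hx y hy
    have h2 := W_add hm0 hm (hA.toSemi.nonneg (W.add_mem hx hy)) h1 (hG.add x hx y hy)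
    apply hA.rot x hx y hy
    simp only [M] at h
    have h3 : (1 - m) / 2 * (A x + A y) ≤ (1 - m) / 2 * A (x + y) := by linarith
    exact le_antisymm h1 (le_of_mul_le_mul_left h3 k0)
  · intro x hx h0 v hv
    have dA := hA.dif x hx h0 v hv
    rcases lt_or_ge (G x) (m * A x) with h | h
    · have c1 := hG.cont hx hv
      have c2 := (hA.toSemi.cont hx hv).const_mul m
      have : ∀ᶠ r : ℝ in 𝓝 0, G (x + r • v) < m * A (x + r • v) :=
        ContinuousAt.eventually_lt c1 c2 (by simpa using h)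
      refine dA.congr_of_eventuallyEq ?_
      filter_upwards [this] with r hr
      exact M_eq hm (hA.toSemi.nonneg (W.add_mem hx (W.smul_mem r hv))) hr.le
    · have dG := hd x hx h0 h v hv
      have d1 : DifferentiableAt ℝ
          (fun r : ℝ => (max (G (x + r • v) - m * A (x + r • v)) 0) ^ 2) 0 :=
        (diff_pos_sq _).comp (0 : ℝ) (dG.sub (dA.const_mul m))
      have d2 : DifferentiableAt ℝ (fun r : ℝ => ((1 - m) / 2 * A (x + r • v)) ^ 2) 0 :=
        (dA.const_mul _).pow 2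
      have hp := hA.pos x hx h0
      refine (dA.const_mul _).add ((dA.const_mul m).add ((d1.add d2).sqrt ?_))
      simp only [Pi.add_apply, zero_smul, add_zero]
      positivity

/-- the Euclidean sum of a norm and a new coordinate -/
theorem Good.base {W' : Submodule ℝ V} {N : V → ℝ} (hN : Good W N) (p : V →ₗ[ℝ] V)
    (t : V →ₗ[ℝ] ℝ) (hp : ∀ z ∈ W', p z ∈ W) (hinj : ∀ z ∈ W', p z = 0 → t z = 0 → z = 0) :
    Good W' fun z => √(N (p z) ^ 2 + t z ^ 2) := by
  have hle : ∀ x ∈ W', ∀ y ∈ W', √(N (p (x + y)) ^ 2 + t (x + y) ^ 2) ≤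
      √((N (p x) + N (p y)) ^ 2 + (t x + t y) ^ 2) := by
    intro x hx y hy
    apply Real.sqrt_le_sqrt
    rw [map_add, map_add]
    have := pow_le_pow_left₀ (hN.toSemi.nonneg (W.add_mem (hp x hx) (hp y hy)))
      (hN.add _ (hp x hx) _ (hp y hy)) 2
    linarith
  have hpos : ∀ x ∈ W', x ≠ 0 → 0 < N (p x) ^ 2 + t x ^ 2 := by
    intro x hx h0
    by_cases h1 : p x = 0
    · have h2 : t x ≠ 0 := fun h2 => h0 (hinj x hx h1 h2)
      positivity
    · have := hN.pos _ (hp x hx) h1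
      positivity
  refine ⟨⟨?_, ?_⟩, ?_, ?_, ?_⟩
  · intro x hx y hy
    exact (hle x hx y hy).trans (mink _ _ _ _)
  · intro c x hx
    have : N (p (c • x)) ^ 2 + t (c • x) ^ 2 = |c| ^ 2 * (N (p x) ^ 2 + t x ^ 2) := by
      rw [map_smul, map_smul, hN.smul c _ (hp x hx), smul_eq_mul, mul_pow, mul_pow, sq_abs]
      ring
    rw [this, Real.sqrt_mul (sq_nonneg _), Real.sqrt_sq (abs_nonneg c)]
  · intro x hx h0
    exact Real.sqrt_pos.2 (hpos x hx h0)
  · intro x hx y hy h
    have h1 := hle x hx y hy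
    have h2 := mink (N (p x)) (t x) (N (p y)) (t y)
    obtain ⟨e1, e2⟩ := mink_eq (le_antisymm h2 (h ▸ h1))
    have h3 : √(N (p (x + y)) ^ 2 + t (x + y) ^ 2) =
        √((N (p x) + N (p y)) ^ 2 + (t x + t y) ^ 2) := le_antisymm h1 (h ▸ h2)
    rw [Real.sqrt_inj (by positivity) (by positivity), map_add, map_add, add_left_inj,
      sq_eq_sq₀ (hN.toSemi.nonneg (W.add_mem (hp x hx) (hp y hy)))
        (add_nonneg (hN.toSemi.nonneg (hp x hx)) (hN.toSemi.nonneg (hp y hy)))] at h3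
    by_cases h0 : x = 0
    · exact Or.inl h0
    right
    have fin : ∀ k : ℝ, p y = k • p x → t y = k * t x → y = k • x := by
      intro k k1 k2
      have := hinj (y - k • x) (W'.sub_mem hy (W'.smul_mem k hx))
        (by rw [map_sub, map_smul, k1, sub_self])
        (by rw [map_sub, map_smul, k2, smul_eq_mul, sub_self])
      exact sub_eq_zero.1 this
    by_cases hx0 : p x = 0
    · have h2 : t x ≠ 0 := fun h2 => h0 (hinj x hx hx0 h2)
      rw [hx0, hN.toSemi.zero] at e1 e2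
      have hy0 : p y = 0 := by
        by_contra hy0
        have := hN.pos _ (hp y hy) hy0
        rcases mul_eq_zero.1 (by linarith : N (p y) * t x = 0) with h | h
        · linarith
        · exact h2 h
      refine ⟨t y / t x, ?_, fin _ (by rw [hx0, hy0, smul_zero]) (by field_simp)⟩
      have : t y / t x = (t x * t y) / (t x) ^ 2 := by field_simp
      rw [this]
      exact div_nonneg (by linarith) (sq_nonneg _)
    · rcases hN.rot _ (hp x hx) _ (hp y hy) h3 with h4 | ⟨k, k0, hk⟩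
      · exact absurd h4 hx0
      refine ⟨k, k0, fin k hk ?_⟩
      rw [hk, hN.smul k _ (hp x hx), abs_of_nonneg k0] at e1
      have := hN.pos _ (hp x hx) hx0
      apply mul_left_cancel₀ this.ne'
      linarith
  · intro x hx h0 v hv
    have d1 : DifferentiableAt ℝ (fun r : ℝ => N (p (x + r • v)) ^ 2) 0 := by
      by_cases h1 : p x = 0
      · have : (fun r : ℝ => N (p (x + r • v)) ^ 2) = fun r => r ^ 2 * N (p v) ^ 2 := by
          ext r
          rw [map_add, map_smul, h1, zero_add, hN.smul r _ (hp v hv), mul_pow, sq_abs]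
        rw [this]
        fun_prop
      · simp only [map_add, map_smul]
        exact (hN.dif _ (hp x hx) h1 _ (hp v hv)).pow 2
    have d2 : DifferentiableAt ℝ (fun r : ℝ => t (x + r • v) ^ 2) 0 := by
      simp only [map_add, map_smul, smul_eq_mul]
      fun_prop
    refine (d1.add d2).sqrt ?_
    simp only [Pi.add_apply, zero_smul, add_zero]
    exact (hpos x hx h0).ne'

end Pool.Agent.H524Z.Tile
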