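import Pool.Agent.H524Z.Tile.Norms

/-!
# Extending a rotund and smooth norm by one coordinate
-/

set_option autoImplicit false

open Filter Topology

namespace Pool.Agent.H524Z.Tile

section fold

variable {V : Type} [AddCommGroup V] [Module ℝ V]

/-- iterated smooth maximum along a list -/
noncomputable def F (B : V → ℝ) (m : ℝ → ℝ) (G : ℝ → V → ℝ) : List ℝ → V → ℝ
  | [], z => B z
  | c :: l, z => M (m c) (F B m G l z) (G c z)

variable {W : Submodule ℝ V} {B : V → ℝ} {m : ℝ → ℝ} {G : ℝ → V → ℝ}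

theorem le_F (l : List ℝ) (z : V) : B z ≤ F B m G l z := by
  induction l with
  | nil => exact le_rfl
  | cons c l ih => exact ih.trans (le_M_left _ _ _)

theorem G_le_F (hm : ∀ c, m c < 1) {z : V} (hz : 0 ≤ B z) {c : ℝ} {l : List ℝ} (hc : c ∈ l) :
    G c z ≤ F B m G l z := by
  induction l with
  | nil => simp at hc
  | cons d l ih =>
    rcases List.mem_cons.1 hc with rfl | h
    · exact le_M_right _ (hm _) (hz.trans (le_F l z))
    · exact (ih h).trans (le_M_left _ _ _)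

theorem F_filter (hm0 : ∀ c, 0 ≤ m c) (hm : ∀ c, m c < 1) {z : V} (hz : 0 ≤ B z) (p : ℝ → Bool)
    (l : List ℝ) (h : ∀ c ∈ l, p c = false → G c z ≤ m c * B z) :
    F B m G (l.filter p) z = F B m G l z := by
  induction l with
  | nil => rfl
  | cons d l ih =>
    have ih' := ih fun c hc => h c (List.mem_cons_of_mem _ hc)
    cases hp : p d
    · rw [List.filter_cons_of_neg (by simp [hp]), ih']
      exact (M_eq (hm d) (hz.trans (le_F l z)) ((h d List.mem_cons_self hp).trans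
        (mul_le_mul_of_nonneg_left (le_F l z) (hm0 d)))).symm
    · rw [List.filter_cons_of_pos hp]
      simp only [F, ih']

theorem F_eq (hm0 : ∀ c, 0 ≤ m c) (hm : ∀ c, m c < 1) {z : V} (hz : 0 ≤ B z)
    (l : List ℝ) (h : ∀ c, G c z ≤ m c * B z) : F B m G l z = B z := by
  rw [← F_filter hm0 hm hz (fun _ => false) l fun c _ _ => h c]
  simp [F]

theorem F_good (hB : Good W B) (hm0 : ∀ c, 0 ≤ m c) (hm : ∀ c, m c < 1) (hG : ∀ c, Semi W (G c))
    (hd : ∀ c, ∀ x ∈ W, x ≠ 0 → m c * B x ≤ G c x → ∀ h ∈ W,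
      DifferentiableAt ℝ (fun r : ℝ => G c (x + r • h)) 0) (l : List ℝ) :
    Good W (F B m G l) := by
  induction l with
  | nil => exact hB
  | cons d l ih =>
    exact ih.step (hG d) (hm0 d) (hm d) fun x hx h0 h =>
      hd d x hx h0 ((mul_le_mul_of_nonneg_left (le_F l x) (hm0 d)).trans h)

end fold

theorem sort_filter {T0 T : Finset ℝ} (h : T0 ⊆ T) :
    (T.sort).filter (fun c => decide (c ∈ T0)) = T0.sort := by
  apply List.Perm.eq_of_pairwise' (r := (· ≤ ·))
  · exact (Finset.pairwise_sort T _).filter _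
  · exact Finset.pairwise_sort T0 _
  · rw [List.perm_ext_iff_of_nodup ((Finset.sort_nodup T _).filter _) (Finset.sort_nodup T0 _)]
    intro a
    simp only [List.mem_filter, Finset.mem_sort, decide_eq_true_eq]
    exact ⟨fun h => h.2, fun ha => ⟨h ha, ha⟩⟩

/-- finitely supported functions with support in `S` -/
abbrev Y (S : Set ℝ) : Submodule ℝ (ℝ →₀ ℝ) := Finsupp.supported ℝ ℝ S

theorem mem_Y {S : Set ℝ} {y : ℝ →₀ ℝ} : y ∈ Y S ↔ ∀ c, c ∉ S → y c = 0 :=
  Finsupp.mem_supported' ℝ y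

theorem params {n : ℝ} (hn : 1 < n) (P : Prop) {w : ℝ} (hw : P → w = 1) :
    ∃ m l θ s : ℝ, (0 ≤ m ∧ m < 1 ∧ 0 ≤ l ∧ 0 ≤ θ ∧ 0 ≤ s ∧ s < m ∧ l + θ < m ∧
      (θ = 0 ∨ l ^ 2 + s ^ 2 < m ^ 2) ∧ (P → l ^ 2 + s ^ 2 < m ^ 2)) ∧
      2 < l * n + θ * w + s := by
  set e := min (n - 1) 1 with he
  have e0 : 0 < e := lt_min (by linarith) one_pos
  have e1 : e ≤ 1 := min_le_right _ _
  have e2 : e ≤ n - 1 := min_le_left _ _
  by_cases hP : P
  · set l := e / 5 with hl
    have l0 : 0 < l := by positivity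
    have l1 : l ≤ 1 / 5 := by linarith
    have l2 : 0 < l ^ 2 := by positivity
    have l3 : l ^ 2 ≤ 1 / 25 := by nlinarith
    have key : l ^ 2 + (1 - 2 * l ^ 2) ^ 2 < (1 - l ^ 2) ^ 2 := by nlinarith
    refine ⟨1 - l ^ 2, l, 1 - l - 2 * l ^ 2, 1 - 2 * l ^ 2, ⟨by linarith, by linarith, l0.le,
      by linarith, by linarith, by linarith, by linarith, Or.inr key, fun _ => key⟩, ?_⟩
    rw [hw hP]
    have : 5 * l ≤ n - 1 := by linarith
    nlinarith
  · refine ⟨1 - e / 8, 1 - e / 4, 0, 1 - e / 4, ⟨by linarith, by linarith, by linarith, le_rfl,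
      by linarith, by linarith, by linarith, Or.inl rfl, fun h => absurd h hP⟩, ?_⟩
    nlinarith

theorem cs {l s m a t : ℝ} (hm : 0 ≤ m) (h : l ^ 2 + s ^ 2 < m ^ 2) (h0 : 0 < a ^ 2 + t ^ 2) :
    l * a + s * |t| < m * √(a ^ 2 + t ^ 2) := by
  have h1 : (l * a + s * |t|) ^ 2 ≤ (l ^ 2 + s ^ 2) * (a ^ 2 + t ^ 2) := by
    rw [← sq_abs t]
    nlinarith [sq_nonneg (l * |t| - s * a)]
  apply lt_of_pow_lt_pow_left₀ 2 (by positivity)
  rw [mul_pow, Real.sq_sqrt h0.le]
  nlinarith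

theorem extend {S : Set ℝ} {N : (ℝ →₀ ℝ) → ℝ} (hN : Good (Y S) N)
    (hc : ∀ y ∈ Y S, ∀ c, |y c| ≤ N y) {γ : ℝ} (hγ : γ ∉ S) (x : ℝ →₀ ℝ) (y : ℝ → ℝ →₀ ℝ)
    (hy : ∀ c ∈ S, y c ∈ Y S ∧ 1 < N (y c) ∧ (x c = 0 → |y c c| = 1)) :
    ∃ N' : (ℝ →₀ ℝ) → ℝ, Good (Y (insert γ S)) N' ∧ (∀ z ∈ Y S, N' z = N z) ∧
      N' (Finsupp.single γ 1) = 1 ∧ (∀ z ∈ Y (insert γ S), ∀ c, |z c| ≤ N' z) ∧
      ∀ c ∈ S, 2 < N' (y c + Finsupp.single γ 1) := by
  classical
  set t : (ℝ →₀ ℝ) →ₗ[ℝ] ℝ := Finsupp.lapply γ with ht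
  set p : (ℝ →₀ ℝ) →ₗ[ℝ] (ℝ →₀ ℝ) := LinearMap.id - (Finsupp.lsingle γ).comp t with hpd
  have tz : ∀ z, t z = z γ := fun z => rfl
  have pz : ∀ z c, p z c = if c = γ then 0 else z c := by
    intro z c
    simp only [hpd, LinearMap.sub_apply, LinearMap.id_apply, LinearMap.comp_apply,
      Finsupp.lsingle_apply, Finsupp.sub_apply, Finsupp.single_apply, tz]
    by_cases h : c = γ
    · simp [h]
    · simp [h, Ne.symm h]
  have hp : ∀ z ∈ Y (insert γ S), p z ∈ Y S := by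
    intro z hz
    rw [mem_Y] at hz ⊢
    intro c hcS
    rw [pz]
    split_ifs with h
    · rfl
    · exact hz c (by simp [h, hcS])
  have hinj : ∀ z ∈ Y (insert γ S), p z = 0 → t z = 0 → z = 0 := by
    intro z _ h1 h2
    ext c
    by_cases h : c = γ
    · rw [h]; exact h2
    · have := pz z c
      rw [h1, if_neg h] at this
      exact this.symm
  have hold : ∀ z ∈ Y S, p z = z ∧ t z = 0 := by
    intro z hz
    have h0 := mem_Y.1 hz γ hγ
    refine ⟨?_, h0⟩
    ext c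
    rw [pz]
    split_ifs with h
    · rw [h, h0]
    · rfl
  have hsub : ∀ z ∈ Y S, z ∈ Y (insert γ S) := fun z hz =>
    Finsupp.supported_mono (Set.subset_insert _ _) hz
  have he : p (Finsupp.single γ 1) = 0 ∧ t (Finsupp.single γ 1) = 1 := by
    refine ⟨?_, by simp [tz]⟩
    ext c
    rw [pz]
    split_ifs with h
    · rfl
    · simp [h]
  have heY : Finsupp.single γ (1 : ℝ) ∈ Y (insert γ S) := by
    rw [mem_Y]
    intro c hcS
    have : c ≠ γ := fun h => hcS (by simp [h])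
    simp [this]
  have hB := hN.base p t hp hinj
  set B : (ℝ →₀ ℝ) → ℝ := fun z => √(N (p z) ^ 2 + t z ^ 2) with hBd
  have B0 : ∀ z, 0 ≤ B z := fun z => Real.sqrt_nonneg _
  have hpar : ∀ c : ℝ, ∃ m l θ s : ℝ, (0 ≤ m ∧ m < 1 ∧ 0 ≤ l ∧ 0 ≤ θ ∧ 0 ≤ s ∧ s < m ∧
      l + θ < m ∧ (θ = 0 ∨ l ^ 2 + s ^ 2 < m ^ 2) ∧ (x c = 0 → l ^ 2 + s ^ 2 < m ^ 2)) ∧
      (c ∈ S → 2 < l * N (y c) + θ * |y c c| + s) := by
    intro c
    by_cases hcS : c ∈ S
    · obtain ⟨m, l, θ, s, h1, h2⟩ := params (hy c hcS).2.1 (x c = 0) (hy c hcS).2.2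
      exact ⟨m, l, θ, s, h1, fun _ => h2⟩
    · exact ⟨1 / 2, 0, 0, 0, by norm_num, fun h => absurd h hcS⟩
  choose m l θ s hpar hbig using hpar
  have hm0 : ∀ c, 0 ≤ m c := fun c => (hpar c).1
  have hm1 : ∀ c, m c < 1 := fun c => (hpar c).2.1
  set G : ℝ → (ℝ →₀ ℝ) → ℝ := fun c z => l c * N (p z) + θ c * |p z c| + s c * |t z| with hGd
  have hG : ∀ c, Semi (Y (insert γ S)) (G c) := by
    intro c
    obtain ⟨-, -, l0, θ0, s0, -⟩ := hpar c
    constructor
    · intro u hu v hv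
      simp only [hGd, map_add, Finsupp.add_apply]
      have h1 := mul_le_mul_of_nonneg_left (hN.add _ (hp u hu) _ (hp v hv)) l0
      have h2 := mul_le_mul_of_nonneg_left (abs_add_le (p u c) (p v c)) θ0
      have h3 := mul_le_mul_of_nonneg_left (abs_add_le (t u) (t v)) s0
      linarith
    · intro r u hu
      simp only [hGd, map_smul, Finsupp.smul_apply, smul_eq_mul, abs_mul]
      rw [hN.smul r _ (hp u hu)]
      ring
  have hB2 : ∀ z ∈ Y (insert γ S), z ≠ 0 → 0 < N (p z) ^ 2 + t z ^ 2 :=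
    fun z hz h0 => Real.sqrt_pos.1 (hB.pos z hz h0)
  have g1 : ∀ c, ∀ z, p z = 0 → t z ≠ 0 → G c z < m c * B z := by
    intro c z h1 h2
    obtain ⟨-, -, -, -, -, h, -⟩ := hpar c
    simp only [hGd, hBd, h1, hN.toSemi.zero]
    simp only [mul_zero, Finsupp.coe_zero, Pi.zero_apply, abs_zero, add_zero, zero_add, ne_eq,
      OfNat.ofNat_ne_zero, not_false_eq_true, zero_pow, Real.sqrt_sq_eq_abs]
    exact mul_lt_mul_of_pos_right h (abs_pos.2 h2)
  have g2 : ∀ c, ∀ z ∈ Y (insert γ S), p z ≠ 0 → t z = 0 → G c z < m c * B z := by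
    intro c z hz h1 h2
    obtain ⟨-, -, -, θ0, -, -, h, -⟩ := hpar c
    have hpos := hN.pos _ (hp z hz) h1
    simp only [hGd, hBd, h2]
    simp only [abs_zero, mul_zero, add_zero, ne_eq, OfNat.ofNat_ne_zero, not_false_eq_true,
      zero_pow, Real.sqrt_sq hpos.le]
    have := mul_le_mul_of_nonneg_left (hc _ (hp z hz) c) θ0
    nlinarith
  have g3 : ∀ c, ∀ z ∈ Y (insert γ S), z ≠ 0 → p z c = 0 → l c ^ 2 + s c ^ 2 < m c ^ 2 →
      G c z < m c * B z := by
    intro c z hz h0 h1 h2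
    simp only [hGd, hBd, h1, abs_zero, mul_zero, add_zero]
    exact cs (hm0 c) h2 (hB2 z hz h0)
  have g0 : ∀ c, G c 0 ≤ m c * B 0 := by
    intro c
    rw [(hG c).zero]
    exact mul_nonneg (hm0 c) (B0 0)
  have hd : ∀ c, ∀ z ∈ Y (insert γ S), z ≠ 0 → m c * B z ≤ G c z → ∀ h ∈ Y (insert γ S),
      DifferentiableAt ℝ (fun r : ℝ => G c (z + r • h)) 0 := by
    intro c z hz h0 hle h hh
    have h1 : p z ≠ 0 := fun h1 =>
      absurd (g1 c z h1 fun h2 => h0 (hinj z hz h1 h2)) (not_lt.2 hle)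
    have h2 : t z ≠ 0 := fun h2 => absurd (g2 c z hz h1 h2) (not_lt.2 hle)
    simp only [hGd, map_add, map_smul, Finsupp.add_apply, Finsupp.smul_apply, smul_eq_mul]
    refine (((hN.dif _ (hp z hz) h1 _ (hp h hh)).const_mul _).add ?_).add ?_
    · rcases (hpar c).2.2.2.2.2.2.2.1 with h3 | h3
      · simp [h3]
      · have h4 : p z c ≠ 0 := fun h4 => absurd (g3 c z hz h0 h4 h3) (not_lt.2 hle)
        refine DifferentiableAt.const_mul (DifferentiableAt.abs (by fun_prop) ?_) _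
        simpa using h4
    · refine DifferentiableAt.const_mul (DifferentiableAt.abs (by fun_prop) ?_) _
      simpa using h2
  have hF := F_good hB hm0 hm1 hG hd
  set N' : (ℝ →₀ ℝ) → ℝ := fun z => F B m G ((p z).support ∪ x.support).sort z with hN'
  have hT : ∀ z ∈ Y (insert γ S), ∀ T : Finset ℝ, (p z).support ∪ x.support ⊆ T →
      N' z = F B m G T.sort z := by
    intro z hz T hT
    simp only [hN']
    rw [← sort_filter hT]
    apply F_filter hm0 hm1 (B0 z)
    intro c _ hcT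
    simp only [Finset.mem_union, Finsupp.mem_support_iff, decide_eq_false_iff_not, not_or,
      not_not] at hcT
    by_cases h0 : z = 0
    · rw [h0]; exact g0 c
    · exact (g3 c z hz h0 hcT.1 ((hpar c).2.2.2.2.2.2.2.2 hcT.2)).le
  have hT2 : ∀ u ∈ Y (insert γ S), ∀ v ∈ Y (insert γ S), ∀ a b : ℝ,
      N' (a • u + b • v) =
        F B m G ((p u).support ∪ (p v).support ∪ x.support).sort (a • u + b • v) := by
    intro u hu v hv a b
    apply hT _ (Submodule.add_mem _ (Submodule.smul_mem _ a hu) (Submodule.smul_mem _ b hv))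
    apply Finset.union_subset_union _ le_rfl
    rw [map_add, map_smul, map_smul]
    exact Finsupp.support_add.trans
      (Finset.union_subset_union Finsupp.support_smul Finsupp.support_smul)
  have hBN : ∀ z, B z ≤ N' z := fun z => le_F _ z
  refine ⟨N', ⟨⟨?_, ?_⟩, ?_, ?_, ?_⟩, ?_, ?_, ?_, ?_⟩
  · intro u hu v hv
    have e1 := hT2 u hu v hv 1 1
    have e2 := hT2 u hu v hv 1 0
    have e3 := hT2 u hu v hv 0 1
    simp only [one_smul, zero_smul, add_zero, zero_add] at e1 e2 e3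
    rw [e1, e2, e3]
    exact (hF _).add u hu v hv
  · intro r u hu
    have e1 := hT2 u hu u hu r 0
    have e2 := hT2 u hu u hu 1 0
    simp only [one_smul, zero_smul, add_zero] at e1 e2
    rw [e1, e2]
    exact (hF _).smul r u hu
  · intro z hz h0
    exact (hB.pos z hz h0).trans_le (hBN z)
  · intro u hu v hv h
    have e1 := hT2 u hu v hv 1 1
    have e2 := hT2 u hu v hv 1 0
    have e3 := hT2 u hu v hv 0 1
    simp only [one_smul, zero_smul, add_zero, zero_add] at e1 e2 e3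
    rw [e1, e2, e3] at h
    exact (hF _).rot u hu v hv h
  · intro u hu h0 v hv
    have e1 := fun r => hT2 u hu v hv 1 r
    simp only [one_smul] at e1
    simp only [e1]
    exact (hF _).dif u hu h0 v hv
  · intro z hz
    have h1 : B z = N z := by
      simp only [hBd, (hold z hz).1, (hold z hz).2]
      simp [Real.sqrt_sq (hN.toSemi.nonneg hz)]
    rw [← h1]
    apply F_eq hm0 hm1 (B0 z)
    intro c
    by_cases h0 : z = 0
    · rw [h0]; exact g0 c
    · exact (g2 c z (hsub z hz) (by rwa [(hold z hz).1]) (hold z hz).2).le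
  · have h1 : B (Finsupp.single γ 1) = 1 := by
      simp only [hBd, he.1, he.2, hN.toSemi.zero]
      simp
    refine Eq.trans (F_eq hm0 hm1 (B0 _) _ ?_) h1
    intro c
    exact (g1 c _ he.1 (by rw [he.2]; norm_num)).le
  · intro z hz c
    refine le_trans ?_ (hBN z)
    apply Real.le_sqrt_of_sq_le
    by_cases h : c = γ
    · rw [h, ← tz, sq_abs]
      nlinarith [sq_nonneg (N (p z))]
    · have h1 := hc _ (hp z hz) c
      rw [pz, if_neg h] at h1
      have := pow_le_pow_left₀ (abs_nonneg _) h1 2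
      nlinarith [sq_nonneg (t z)]
  · intro c hcS
    have hyc := (hy c hcS).1
    have hz := Submodule.add_mem _ (hsub _ hyc) heY
    have e1 : p (y c + Finsupp.single γ 1) = y c := by
      rw [map_add, he.1, (hold _ hyc).1, add_zero]
    have e2 : t (y c + Finsupp.single γ 1) = 1 := by
      rw [map_add, he.2, (hold _ hyc).2, zero_add]
    rw [hT _ hz (insert c _) (Finset.subset_insert _ _)]
    refine lt_of_lt_of_le ?_ (G_le_F hm1 (B0 _) (c := c) (by simp))
    simp only [hGd, e1, e2, abs_one, mul_one]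
    exact hbig c hcS

end Pool.Agent.H524Z.Tile
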